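import Pool.Agent.helper41.CL.Spec

set_option autoImplicit false

namespace Pool.Agent.helper41.CL

open Finset

theorem WC_iff {n : ℕ} (G : SimpleGraph (Fin n)) (s : Finset (Fin n)) :
    (∀ e ∈ NE G, ∃ x ∈ e, x ∈ sᶜ) ↔ G.IsClique (s : Set (Fin n)) := by
  classical
  constructor
  · intro h a ha b hb hab
    by_contra hna
    have he : ({a, b} : Finset (Fin n)) ∈ NE G := by
      unfold NE
      rw [@mem_filter _ _ (_) _ _, mem_powersetCard]
      refine ⟨⟨subset_univ _, card_pair hab⟩, fun hc => hna ?_⟩
      exact hc (by simp) (by simp) hab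
    obtain ⟨x, hx, hxs⟩ := h _ he
    rw [mem_compl] at hxs
    simp only [mem_insert, mem_singleton] at hx
    rcases hx with rfl | rfl
    · exact hxs ha
    · exact hxs hb
  · intro h e he
    unfold NE at he
    rw [@mem_filter _ _ (_) _ _, mem_powersetCard] at he
    by_contra hcon
    push Not at hcon
    apply he.2
    intro a ha b hb hab
    refine h ?_ ?_ hab
    · have := hcon a ha
      simpa using this
    · have := hcon b hb
      simpa using this

theorem WC : WC_stmt := by
  classical
  intro n k G _ hk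
  have key : ∀ s : Finset (Fin n), s ∈ G.cliqueFinset k ↔ sᶜ ∈ cov univ (NE G) (n - k) := by
    intro s
    unfold cov
    rw [@mem_filter _ _ (_) _ _, mem_powersetCard, SimpleGraph.mem_cliqueFinset_iff, SimpleGraph.isNClique_iff, WC_iff]
    have hc : #sᶜ = n - #s := by rw [card_compl, Fintype.card_fin]
    have hs : #s ≤ n := by simpa using card_le_univ s
    constructor
    · rintro ⟨h1, h2⟩
      exact ⟨⟨subset_univ _, by rw [hc, h2]⟩, h1⟩
    · rintro ⟨⟨-, h1⟩, h2⟩
      exact ⟨h2, by omega⟩
  constructor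
  · symm
    refine card_bij (fun s _ => sᶜ) (fun s hs => (key s).1 hs) (fun a _ b _ h => compl_injective h) ?_
    intro C hC
    exact ⟨Cᶜ, (key _).2 (by rwa [compl_compl]), compl_compl C⟩
  · intro h x _
    obtain ⟨s, hs, hx⟩ := h x
    exact ⟨sᶜ, (key s).1 (SimpleGraph.mem_cliqueFinset_iff.2 hs), mem_compl.2 hx⟩

end Pool.Agent.helper41.CL
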