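import Pool.Agent.helper41.CL.SpecB

set_option autoImplicit false

namespace Pool.Agent.helper41.CL

open Finset

/-- the graph whose non-edges are the members of `E` -/
def XG_G (n : ℕ) (E : Finset (Finset ℕ)) : SimpleGraph (Fin n) where
  Adj i j := i ≠ j ∧ ({(i : ℕ), (j : ℕ)} : Finset ℕ) ∉ E
  symm := ⟨fun i j h => ⟨h.1.symm, by rw [pair_comm]; exact h.2⟩⟩
  loopless := ⟨fun _ h => h.1 rfl⟩

theorem XG_NE {n : ℕ} {E : Finset (Finset ℕ)} (hE : Gr (range n) E) (e : Finset (Fin n)) :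
    e ∈ NE (XG_G n E) ↔ e.map Fin.valEmbedding ∈ E := by
  classical
  unfold NE
  rw [@mem_filter _ _ (_) _ _, mem_powersetCard]
  constructor
  · rintro ⟨⟨-, h2⟩, hc⟩
    obtain ⟨a, b, hab, rfl⟩ := card_eq_two.1 h2
    by_contra hn
    apply hc
    intro x hx y hy hxy
    refine ⟨hxy, ?_⟩
    simp only [coe_insert, coe_singleton, Set.mem_insert_iff, Set.mem_singleton_iff] at hx hy
    have hm : ({a, b} : Finset (Fin n)).map Fin.valEmbedding = {(a : ℕ), (b : ℕ)} := by simp [map_insert]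
    rw [hm] at hn
    rcases hx with rfl | rfl <;> rcases hy with rfl | rfl
    · exact absurd rfl hxy
    · exact hn
    · rw [pair_comm]; exact hn
    · exact absurd rfl hxy
  · intro h
    have h2 := (hE _ h).2
    rw [card_map] at h2
    refine ⟨⟨subset_univ _, h2⟩, fun hc => ?_⟩
    obtain ⟨a, b, hab, rfl⟩ := card_eq_two.1 h2
    have hm : ({a, b} : Finset (Fin n)).map Fin.valEmbedding = {(a : ℕ), (b : ℕ)} := by simp [map_insert]
    rw [hm] at h
    have hadj := hc (show a ∈ (({a, b} : Finset (Fin n)) : Set (Fin n)) by simp)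
      (show b ∈ (({a, b} : Finset (Fin n)) : Set (Fin n)) by simp) hab
    exact hadj.2 h

theorem XG_lift {n : ℕ} {S : Finset ℕ} (h : S ⊆ range n) : ∃ T : Finset (Fin n), T.map Fin.valEmbedding = S := by
  classical
  refine ⟨univ.filter fun i : Fin n => (i : ℕ) ∈ S, ?_⟩
  ext x
  simp only [mem_map, mem_filter, mem_univ, true_and, Fin.valEmbedding_apply]
  constructor
  · rintro ⟨i, hi, rfl⟩; exact hi
  · intro hx
    exact ⟨⟨x, mem_range.1 (h hx)⟩, hx, rfl⟩

theorem XG_cov {n : ℕ} {E : Finset (Finset ℕ)} (hE : Gr (range n) E) (c : ℕ) (C : Finset (Fin n)) :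
    C ∈ cov univ (NE (XG_G n E)) c ↔ C.map Fin.valEmbedding ∈ cov (range n) E c := by
  classical
  unfold cov
  rw [@mem_filter _ _ (_) _ _, @mem_filter _ _ (_) _ _, mem_powersetCard, mem_powersetCard, card_map]
  have hsub : C.map Fin.valEmbedding ⊆ range n := by
    intro x hx
    obtain ⟨i, -, rfl⟩ := mem_map.1 hx
    exact mem_range.2 i.2
  constructor
  · rintro ⟨⟨-, h2⟩, h3⟩
    refine ⟨⟨hsub, h2⟩, fun e he => ?_⟩
    obtain ⟨T, rfl⟩ := XG_lift (hE e he).1
    obtain ⟨x, hx, hxC⟩ := h3 T ((XG_NE hE T).2 he)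
    exact ⟨(x : ℕ), mem_map.2 ⟨x, hx, rfl⟩, mem_map.2 ⟨x, hxC, rfl⟩⟩
  · rintro ⟨⟨-, h2⟩, h3⟩
    refine ⟨⟨subset_univ _, h2⟩, fun e he => ?_⟩
    obtain ⟨x, hx, hxC⟩ := h3 _ ((XG_NE hE e).1 he)
    obtain ⟨i, hi, rfl⟩ := mem_map.1 hx
    obtain ⟨j, hj, hij⟩ := mem_map.1 hxC
    have : j = i := Fin.valEmbedding.injective hij
    exact ⟨i, hi, this ▸ hj⟩

theorem XG : XG_stmt := by
  classical
  intro n E hE
  refine ⟨XG_G n E, ?_, ?_, ?_⟩
  · refine card_bij (fun e _ => e.map Fin.valEmbedding) (fun e he => (XG_NE hE e).1 he)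
      (fun a _ b _ h => map_injective _ h) ?_
    intro e he
    obtain ⟨T, rfl⟩ := XG_lift (hE e he).1
    exact ⟨T, (XG_NE hE T).2 he, rfl⟩
  · intro c
    refine card_bij (fun e _ => e.map Fin.valEmbedding) (fun e he => (XG_cov hE c e).1 he)
      (fun a _ b _ h => map_injective _ h) ?_
    intro C hC
    have hC' : C ⊆ range n := by
      unfold cov at hC
      rw [@mem_filter _ _ (_) _ _, mem_powersetCard] at hC
      exact hC.1.1
    obtain ⟨T, rfl⟩ := XG_lift hC'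
    exact ⟨T, (XG_cov hE c T).2 hC, rfl⟩
  · intro c h x
    obtain ⟨C, hC, hx⟩ := h (x : ℕ) (mem_range.2 x.2)
    have hC' : C ⊆ range n := by
      unfold cov at hC
      rw [@mem_filter _ _ (_) _ _, mem_powersetCard] at hC
      exact hC.1.1
    obtain ⟨T, rfl⟩ := XG_lift hC'
    refine ⟨T, (XG_cov hE c T).2 hC, ?_⟩
    obtain ⟨y, hy, hyx⟩ := mem_map.1 hx
    have : y = x := Fin.valEmbedding.injective hyx
    exact this ▸ hy

end Pool.Agent.helper41.CL
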