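import Pool.Agent.helper41.CL.FN
import Pool.Agent.helper41.CL.WC
import Pool.Agent.helper41.CL.XG
import Pool.Agent.helper47.CL.AO
import Pool.Agent.helper27.CL.AZ
import Pool.Agent.helper16.CL.DC
import Pool.Agent.helper53.CL.DP
import Pool.Agent.helper54.CL.EA
import Pool.Agent.helper64.CL.EB
import Pool.Agent.helper30.CL.EX
import Pool.Agent.helper73.CL.NC
import Pool.Agent.helper22.CL.NM
import Pool.Agent.helper3.CL.SD
import Pool.Agent.helper71.CL.SH
import Pool.Agent.helper66.CL.SP
import Pool.Agent.helper96.CL.ST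
import Pool.Agent.helper57.CL.WA
import Pool.Agent.helper67.CL.WB
import Pool.Agent.helper29.CL.WD
import Pool.Agent.helper69.CL.WO
import Pool.Agent.helper73.CL.XC
import Pool.Agent.helper85.CL.XI
import Pool.Agent.helper56.CL.XK
import Pool.Agent.helper69.CL.XP
import Pool.Agent.helper29.CL.XQ
import Pool.Agent.helper23.CL.XR
import Pool.Agent.helper47.CL.WE

set_option autoImplicit false

namespace Pool.Agent.helper41.CL

open Finset

theorem All_FN : FN_stmt := by
  have st := ST SD
  have az := AZ DP st
  have ao := AO DP st az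
  have ea := EA az ao SP WO SD
  exact FN ea (EB az ao SP WO ea (EX DC)) (NC SD DC) (NM SD DC) WA WB WC WD

theorem All_SH : SH_stmt := by
  have xk := XK SP
  exact SH (XP xk (XI SP)) (XQ xk) XR XC XG WE WA WB WC

end Pool.Agent.helper41.CL
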