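import Pool.Agent.helper41.CL.All
import Pool.Agent.helper5.CL.YA
import Pool.Agent.helper4.CL.YB
import Pool.Agent.helper76.CL.YE
import Pool.Agent.helper39.CL.YF2
import Pool.Agent.helper98.CL.YG
import Pool.Agent.helper43.CL.YX
import Pool.Agent.helper59.CL.SI
import Pool.Agent.helper43.CL.XS
import Pool.Agent.helper21.CL.WF
import Pool.Agent.helper30.CL.WG

set_option autoImplicit false

namespace Pool.Agent.helper41.CL

open Finset

theorem All_ED : ED_stmt := by
  have st := ST SD
  have az := AZ DP st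
  have ao := AO DP st az
  have ea := EA az ao SP WO SD
  have ya := YA az SP SD
  have yb := YB az ao SP WO ea SD
  have yg := YG az SP SD (YX DC) (YE az SP WO ya yb) (YF az SP WO ea SD)
  intro α _ V E hG h5 hV hc
  have h := yg α V E (#E - 2) hG (by omega) (by omega) (by omega) hc
  have e1 : #E = (#E - 2 - 1) + 3 := by omega
  have e2 : 2 ^ #E = 8 * 2 ^ (#E - 2 - 1) := by
    conv_lhs => rw [e1]
    rw [pow_add]; ring
  rw [e2]
  exact Nat.mul_le_mul_left 8 h

theorem All_SI : SI_stmt := SI All_ED (XS (XK SP)) XG WE WA WC WF WG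

/-- All together: the least number of copies of `K_k` for `n ≤ 2 k`. -/
theorem All_main (k n : ℕ) (hk : 3 ≤ k) (hn : n ≤ 2 * k) :
    (n ≤ k + 1 → counts n k = ∅) ∧
    (k + 2 ≤ n → n ≤ 2 * k - 2 → IsLeast (counts n k) (2 ^ (n - k) * (3 * k - n + 6) / 8)) ∧
    (n = 2 * k - 1 → IsLeast (counts n k) ((2 ^ k * (k + 10) + 31) / 32)) ∧
    (n = 2 * k → IsLeast (counts n k) (2 ^ (k - 1))) ∧
    (∀ N ∈ counts n k, target n k ≤ N ∧ (n < 2 * k → target n k < N)) := by
  have fn := All_FN
  have sh := All_SH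
  have si := All_SI
  rcases Nat.lt_or_ge n (2 * k) with hlt | hge
  · have key : ∀ N ∈ counts n k, k + 2 ≤ n ∧ target n k < N ∧
        (n ≤ 2 * k - 2 → 2 ^ (n - k) * (3 * k - n + 6) ≤ 8 * N) ∧
        (n = 2 * k - 1 → 2 ^ k * (k + 10) ≤ 32 * N) := by
      rintro N ⟨G, _, h1, h2, rfl⟩
      exact fn k n G hk (by omega) h1 h2
    obtain ⟨s1, s2, s3⟩ := sh k n hk
    refine ⟨fun h => ?_, fun h1 h2 => ?_, fun h => ?_, fun h => by omega, fun N hN => ⟨(key N hN).2.1.le, fun _ => (key N hN).2.1⟩⟩
    · rw [Set.eq_empty_iff_forall_notMem]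
      intro N hN
      have := (key N hN).1
      omega
    · obtain ⟨N, hN, hN8⟩ := s1 h1 h2
      have e : 2 ^ (n - k) * (3 * k - n + 6) / 8 = N := by omega
      rw [e]
      refine ⟨hN, fun M hM => ?_⟩
      have := (key M hM).2.2.1 h2
      omega
    · rcases Nat.lt_or_ge k 4 with h4 | h4
      · have h3 : k = 3 := by omega
        subst h3
        have h5 : n = 5 := by omega
        subst h5
        refine ⟨?_, fun M hM => ?_⟩
        · have := s3 rfl rfl
          norm_num
          exact this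
        · have := (key M hM).2.2.2 rfl
          omega
      · obtain ⟨N, hN, hN8⟩ := s2 h4 h
        have e : (2 ^ k * (k + 10) + 31) / 32 = N := by omega
        rw [e]
        refine ⟨hN, fun M hM => ?_⟩
        have := (key M hM).2.2.2 h
        omega
  · have h2 : n = 2 * k := by omega
    subst h2
    obtain ⟨t1, t2⟩ := si k hk
    refine ⟨fun h => by omega, fun _ h => by omega, fun h => by omega, fun _ => t2, fun N hN => ⟨?_, fun h => by omega⟩⟩
    rw [t1]
    exact t2.2 hN

end Pool.Agent.helper41.CL
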