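import Pool.Agent.helper41.CL.XT

/-! All `n ≤ 3 k - 3` together (the statements of part D are hypotheses here). -/

set_option autoImplicit false

namespace Pool.Agent.helper41.CL

open Finset

theorem Main3 (tc : TC_stmt) (ta : TA_stmt) (tb : TB_stmt) (k n : ℕ) (hk : 3 ≤ k) (hn : n ≤ 3 * k - 3) :
    (n ≤ k + 1 → counts n k = ∅) ∧
    (k + 2 ≤ n → n ≤ 2 * k - 2 → IsLeast (counts n k) (2 ^ (n - k) * (3 * k - n + 6) / 8)) ∧
    (n = 2 * k - 1 → IsLeast (counts n k) ((2 ^ k * (k + 10) + 31) / 32)) ∧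
    (2 * k ≤ n → target n k = 4 * 3 ^ (n - 2 * k) * 2 ^ (3 * k - 3 - n) ∧ IsLeast (counts n k) (target n k)) ∧
    (∀ N ∈ counts n k, target n k ≤ N ∧ (n < 2 * k → target n k < N)) := by
  rcases Nat.lt_or_ge n (2 * k) with hlt | hge
  · obtain ⟨h1, h2, h3, h4, h5⟩ := All_main k n hk hlt.le
    exact ⟨h1, h2, h3, fun h => by omega, h5⟩
  · obtain ⟨q, rfl⟩ : ∃ q, k = q + 1 := ⟨k - 1, by omega⟩
    obtain ⟨r, rfl⟩ : ∃ r, n = 2 * q + r := ⟨n - 2 * q, by omega⟩
    have hr : 2 ≤ r := by omega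
    have hq : r ≤ q := by omega
    have low : ∀ N ∈ counts (2 * q + r) (q + 1), target (2 * q + r) (q + 1) ≤ N := by
      rintro N ⟨G, _, h1, h2, rfl⟩
      exact tc q r G hr hq h1 h2
    refine ⟨fun h => by omega, fun _ h => by omega, fun h => by omega, fun _ => ⟨?_, ?_⟩,
      fun N hN => ⟨low N hN, fun h => by omega⟩⟩
    · rw [tb q r hr hq]
      have e1 : 2 * q + r - 2 * (q + 1) = r - 2 := by omega
      have e2 : 3 * (q + 1) - 3 - (2 * q + r) = q - r := by omega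
      rw [e1, e2]
    · exact ⟨XT (XS (XK SP)) ta tb q r hr hq, low⟩

end Pool.Agent.helper41.CL
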