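import Pool.Agent.helper32.CL.MA
import Pool.Agent.helper27.CL.MB
import Pool.Agent.helper51.CL.MC
import Pool.Agent.helper96.CL.NA
import Pool.Agent.helper99.CL.NM2
import Pool.Agent.helper71.CL.NP
import Pool.Agent.helper31.CL.NQ
import Pool.Agent.helper4.CL.NS
import Pool.Agent.helper53.CL.NT
import Pool.Agent.helper98.CL.RA
import Pool.Agent.helper27.CL.RB
import Pool.Agent.helper66.CL.RC
import Pool.Agent.helper96.CL.RD
import Pool.Agent.helper85.CL.TA
import Pool.Agent.helper61.CL.TB
import Pool.Agent.helper75.CL.TC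
import Pool.Agent.helper54.CL.ZB
import Pool.Agent.helper58.CL.ZD
import Pool.Agent.helper94.CL.ZE
import Pool.Agent.helper61.CL.ZH
import Pool.Agent.helper40.CL.ZI
import Pool.Agent.helper59.CL.ZK
import Pool.Agent.helper33.CL.ZL
import Pool.Agent.helper69.CL.ZP
import Pool.Agent.helper95.CL.ZR
import Pool.Agent.helper13.CL.ZS
import Pool.Agent.helper18.CL.ZW
import Pool.Agent.helper38.CL.BF
import Pool.Agent.helper41.CL.Main3

/-! Part D (all `n ≤ 3 k - 3`) closed. -/

set_option autoImplicit false

namespace Pool.Agent.helper41.CL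

open Finset

theorem AllE_TC : TC_stmt := by
  have bf := BF ZD ZK ZP SD
  have st := ST SD
  have az := AZ DP st
  have ao := AO DP st az
  have ea := EA az ao SP WO SD
  have eb := EB az ao SP WO ea (EX DC)
  have ya := YA az SP SD
  have yb := YB az ao SP WO ea SD
  have nc := NC SD DC
  have zb := ZB
  have zr := ZR zb az ao
  have zl := ZL ZD
  have zw := ZW ZD
  have zi := ZI ZH
  have mc := MC MA (MB MA)
  have rc := RC mc zr ZK zl zw zi ZE ZS SD
  have rb := RB bf zr ZK zl zw zi ZS SD
  have ra := RA zr zl zw zi ZP ZS SD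
  have rd := RD rc rb ra
  have na := NA zb az yb nc eb ya
  have nq := NQ (NP ZK) ZH SD
  exact TC (NM2 rd na nq NS NT zw ZP) TA TB WA WC zb

end Pool.Agent.helper41.CL
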