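import Pool.Agent.helper41.CL.Spec

set_option autoImplicit false

namespace Pool.Agent.helper41.CL

open Finset

theorem FN_gr {n : ℕ} (G : SimpleGraph (Fin n)) : Gr univ (NE G) := by
  classical
  intro e he
  unfold NE at he
  rw [mem_filter, mem_powersetCard] at he
  exact ⟨subset_univ _, he.1.2⟩

theorem FN (h1 : EA_stmt) (h2 : EB_stmt) (h3 : NC_stmt) (h4 : NM_stmt) (h5 : WA_stmt) (h6 : WB_stmt) (h7 : WC_stmt)
    (h8 : WD_stmt) : FN_stmt := by
  intro k n G _ hk hn hE hc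
  have hg := FN_gr G
  have ha := h5 n G
  obtain ⟨hb1, hb2, hb3⟩ := h6 n (k - 1) (by omega)
  have hnk : k ≤ n := by
    by_contra h
    have := hb1 (by omega)
    omega
  obtain ⟨hc1, hc2⟩ := h7 n k G hnk
  have hc3 := hc2 hc
  have hcu : #(univ : Finset (Fin n)) = n := by simp
  rcases Nat.lt_or_ge n (2 * k - 1) with hlt | hge
  · -- `k ≤ n ≤ 2 k - 2`
    have hb := hb2 (by omega) (by omega)
    have hN : #(NE G) = n - k := by omega
    have hp : ∃ p, 2 ≤ #(inc (NE G) p) := by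
      refine h4 (Fin n) univ (NE G) hg (by rw [hcu]; omega) ?_
      rw [hN]; exact hc3
    obtain ⟨p, hp⟩ := hp
    have h2N : 2 ≤ n - k := by
      rw [← hN]
      exact hp.trans (card_filter_le _ _)
    have hA := h1 (Fin n) univ (NE G) p hg hp (by rw [hcu]; omega)
    rw [hcu, hN, hc1] at hA
    have e1 : 2 * n - 3 * (n - k) + 6 = 3 * k - n + 6 := by omega
    rw [e1] at hA
    obtain ⟨ht, -⟩ := h8 n k hk
    refine ⟨by omega, ?_, fun _ => hA, fun h => by omega⟩
    rw [ht (by omega) (by omega)]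
    have hpos : 0 < 2 ^ (n - k) := by positivity
    have h9 : 9 ≤ 3 * k - n + 6 := by omega
    have : 2 ^ (n - k) * 9 ≤ 2 ^ (n - k) * (3 * k - n + 6) := Nat.mul_le_mul_left _ h9
    omega
  · have hn2 : n = 2 * k - 1 := by omega
    have hb := hb3 (by omega)
    have hN : #(NE G) = k := by omega
    have hD : ∃ D : Finset (Fin n), (∀ e ∈ NE G, ∃ x ∈ e, x ∈ D) ∧ #D + 2 ≤ #(NE G) := by
      refine h3 (Fin n) univ (NE G) hg (by omega) (by rw [hcu]; omega) ?_
      have : #(NE G) - 1 = n - k := by omega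
      rw [this]; exact hc3
    obtain ⟨D, hD1, hD2⟩ := hD
    have hB := h2 (Fin n) univ (NE G) D hg (by omega) (by rw [hcu]; omega) hD1 hD2
    have e1 : #(NE G) - 1 = n - k := by omega
    rw [e1, hN, hc1] at hB
    obtain ⟨-, ht⟩ := h8 n k hk
    refine ⟨by omega, ?_, fun h => by omega, fun _ => hB⟩
    rw [ht hn2]
    obtain ⟨m, rfl⟩ : ∃ m, k = m + 3 := ⟨k - 3, by omega⟩
    have e2 : m + 3 - 3 = m := by omega
    rw [e2]
    have hpos : 0 < 2 ^ m := by positivity
    have e3 : 2 ^ (m + 3) = 8 * 2 ^ m := by ring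
    rw [e3] at hB
    nlinarith

end Pool.Agent.helper41.CL
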