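import Mathlib

/-!
# MP_d9d598_co, project CL: the statement for all `k ≥ 3` and all `n ≤ 2 k - 1`

`E` is the set of the non-edges of the graph `G` (2-element sets), `V` the set of the vertices, a copy of `K_k` is the complement of a
COVER of `E` of size `n - k`. The theorem is: for `k ≥ 3`, `n ≤ 2 k - 1`, a graph with `t_{k-1}(n) + 1` edges whose `K_k` have empty
intersection has at least `2^(n-k-3) (3k-n+6)` (for `n ≤ 2k-2`), at least `2^(k-5) (k+10)` (for `n = 2k-1`) copies of `K_k`; both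
numbers are larger than the conjectured `(|V_1|+|V_2|-2) |V_3| ... |V_(k-1)|`.

RULES: file `Pool/Agent/<seat>/CL/XX.lean`, `import Pool.Agent.helper41.CL.Spec`, namespace `Pool.Agent.helper41.CL`, theorem
`theorem XX : XX_stmt` or, where the docstring says it, `theorem XX (h1 : YY_stmt) ... : XX_stmt`.
-/

set_option autoImplicit false

namespace Pool.Agent.helper41.CL

open Finset

/-- The covers of size `c`: the subsets of `V` with `c` elements that meet every `e ∈ E`. -/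
def cov {α : Type} [DecidableEq α] (V : Finset α) (E : Finset (Finset α)) (c : ℕ) : Finset (Finset α) :=
  (V.powersetCard c).filter fun C => ∀ e ∈ E, ∃ x ∈ e, x ∈ C

/-- `E` is a set of 2-element subsets of `V`. -/
def Gr {α : Type} [DecidableEq α] (V : Finset α) (E : Finset (Finset α)) : Prop := ∀ e ∈ E, e ⊆ V ∧ e.card = 2

/-- The members of `E` that contain `p`; its cardinality is the degree of `p`. -/
def inc {α : Type} [DecidableEq α] (E : Finset (Finset α)) (p : α) : Finset (Finset α) := E.filter fun e => p ∈ e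

/-- Row DP (medium). Write `V' = V \ {y, z}`. THREE INJECTIONS with disjoint images into `cov V E (c+2)`.
For `C` in `cov V' E' (c+1)`: if `a ∈ C` or `b ∈ C` the images are `insert y C` and `insert z C`; otherwise `insert a C` and
`insert b C` (all are covers of `E`; the size is right because `y, z ∉ C`, and `a, b ∉ C` in the second case).
For `C` in `cov V' E' c`: if `a` or `b` is in `C ∪ {y, z}` the image is `C ∪ {y, z}`; otherwise (`a, b ∉ C`, `a, b ∉ {y, z}`) it is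
`C ∪ {a, b}`. Injectivity: an image `S` of the first two kinds contains at most one of `y, z`; if it contains one, then
`C = S \ {y, z}`, and if it contains none, then `C = S \ {a, b}` and `S` contains exactly one of `a, b` (as `C ∩ {a, b} = ∅`). So `C` is
determined by `S`, and for given `C` the two images are different because `y ≠ z`, `a ≠ b`. An image of the third kind contains `y` and `z`
(then `C = S \ {y, z}`), or contains none of them but both `a` and `b` (then `C = S \ {a, b}`).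
The first inequality (sizes `c`, `c + 1`) uses the first two maps only. NOTE: `{a, b}` and `{y, z}` may have 0, 1 or 2 common elements.
(Hint: define `f₀ f₁ : Finset α → Finset α` by `if`, a decoder `g S = if y ∈ S ∨ z ∈ S then S \ {y, z} else S \ {a, b}`, show
`g (f₀ C) = C`, `g (f₁ C) = C`, `f₀ C ≠ f₁ C`; use `card_union_of_disjoint`, `card_image_of_injOn`.) -/
def DP_stmt : Prop :=
  ∀ (α : Type) [DecidableEq α] (V : Finset α) (E E' : Finset (Finset α)) (a b y z : α),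
    a ≠ b → y ≠ z → a ∈ V → b ∈ V → y ∈ V → z ∈ V →
    (∀ e ∈ E, e = {a, b} ∨ e ∈ E') → (∀ e ∈ E', y ∉ e ∧ z ∉ e) →
    (∀ c : ℕ, 2 * #(cov (V \ {y, z}) E' c) ≤ #(cov V E (c + 1))) ∧
    (∀ c : ℕ, 2 * #(cov (V \ {y, z}) E' (c + 1)) + #(cov (V \ {y, z}) E' c) ≤ #(cov V E (c + 2)))

/-- Row SD (short). The sum of the degrees is `2 |E|`: `sum_card_bipartiteAbove_eq_sum_card_bipartiteBelow` (or `sum_comm` of indicators) and
`V.filter (· ∈ e) = e` for `e ∈ E`. -/
def SD_stmt : Prop :=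
  ∀ (α : Type) [DecidableEq α] (V : Finset α) (E : Finset (Finset α)), Gr V E → ∑ x ∈ V, #(inc E x) = 2 * #E

/-- Row DC (short). Double counting: if `C` meets every `e ∈ E`, then `∑_{x ∈ C} deg x = ∑_{e ∈ E} |e ∩ C|`, each summand is at least `1`, and it
is at least `2` (it is `|e| = 2`) if `e ⊆ C`. -/
def DC_stmt : Prop :=
  ∀ (α : Type) [DecidableEq α] (V : Finset α) (E : Finset (Finset α)) (C : Finset α), Gr V E →
    (∀ e ∈ E, ∃ x ∈ e, x ∈ C) → #E + #(E.filter fun e => e ⊆ C) ≤ ∑ x ∈ C, #(inc E x)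

/-- Row ST (medium), `theorem ST (h1 : SD_stmt) : ST_stmt`. If `E = ∅`: take two different elements `y, z` of `V`, `a = y`, `b = z`,
`E' = ∅`. Otherwise `E' = E.erase {a, b}` for an `{a, b} ∈ E` (so `#E' = #E - 1`), where `y ≠ z` are chosen such that no other member of
`E` contains them: CASE 1, two elements `y ≠ z` of `V` have degree 0: any member `{a, b}` of `E`. CASE 2, exactly one element `y` has degree 0:
some `z` has degree 1 (otherwise the degree sum is `≥ 2 (#V - 1) ≥ 4e - 2 > 2e ≥ 2 #E` if `e ≥ 2`, and for `e = 1`, `#E = 1`, every element of the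
only member of `E` has degree 1); `{a, b}` = the member of `E` that contains `z`. CASE 3, no element of `V` has degree 0: `2 #E` = degree sum
`≥ #V ≥ 2 e ≥ 2 #E`, so every degree is 1; any `{a, b} ∈ E`, `y = a`, `z = b`. -/
def ST_stmt : Prop :=
  ∀ (α : Type) [DecidableEq α] (V : Finset α) (E : Finset (Finset α)) (e : ℕ), Gr V E → 1 ≤ e → #E ≤ e → 2 * e ≤ #V →
    ∃ (E' : Finset (Finset α)) (a b y z : α), a ≠ b ∧ y ≠ z ∧ a ∈ V ∧ b ∈ V ∧ y ∈ V ∧ z ∈ V ∧
      (∀ f ∈ E, f = {a, b} ∨ f ∈ E') ∧ (∀ f ∈ E', y ∉ f ∧ z ∉ f) ∧ #E' ≤ e - 1 ∧ Gr (V \ {y, z}) E'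

/-- Row AZ (short), `theorem AZ (h1 : DP_stmt) (h2 : ST_stmt) : AZ_stmt`. Induction on `e`: `e = 0`: `E = ∅` and `∅` is a cover.
Step: `ST`, then the first inequality of `DP` with `c = e - 1`; `#(V \ {y, z}) = #V - 2`. -/
def AZ_stmt : Prop :=
  ∀ (α : Type) [DecidableEq α] (V : Finset α) (E : Finset (Finset α)) (e : ℕ), Gr V E → #E ≤ e → 2 * e ≤ #V →
    2 ^ e ≤ #(cov V E e)

/-- Row AO (short), `theorem AO (h1 : DP_stmt) (h2 : ST_stmt) (h3 : AZ_stmt) : AO_stmt`. Induction on `e`. `e = 0`: `E = ∅`,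
`cov V ∅ 1 = powersetCard 1 V` has `#V` members. Step: `ST`, second inequality of `DP` with `c = e - 1`:
`2 #(cov V E (e+1)) ≥ 2 (2 N' + N'')`, `2 N' ≥ 2^(e-1) (2 (#V - 2) - 3 (e - 1))` by induction, `N'' ≥ 2^(e-1)` by `AZ`. -/
def AO_stmt : Prop :=
  ∀ (α : Type) [DecidableEq α] (V : Finset α) (E : Finset (Finset α)) (e : ℕ), Gr V E → #E ≤ e → 2 * e ≤ #V →
    2 ^ e * (2 * #V - 3 * e) ≤ 2 * #(cov V E (e + 1))

/-- Row SP (short). The covers that contain `p` are the sets `insert p C`, `C` a cover of the members of `E` without `p`; the covers without `p`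
are the covers in `V.erase p`. -/
def SP_stmt : Prop :=
  ∀ (α : Type) [DecidableEq α] (V : Finset α) (E : Finset (Finset α)) (p : α) (c : ℕ), p ∈ V →
    #(cov V E (c + 1)) = #(cov (V.erase p) (E.filter fun e => p ∉ e) c) + #(cov (V.erase p) E (c + 1))

/-- Row WO (short). If `{p, a}`, `{p, b}` are the only members of `E` that contain `p`, then `C ↦ C ∪ {a, b}` is an injection into the covers
without `p`. -/
def WO_stmt : Prop :=
  ∀ (α : Type) [DecidableEq α] (V : Finset α) (E : Finset (Finset α)) (p a b : α) (c : ℕ), a ∈ V → b ∈ V → p ≠ a → p ≠ b → a ≠ b →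
    (∀ e ∈ E, p ∈ e → e = {p, a} ∨ e = {p, b}) →
    #(cov (V \ {p, a, b}) (E.filter fun e => p ∉ e ∧ a ∉ e ∧ b ∉ e) c) ≤ #(cov (V.erase p) E (c + 2))

/-- Row EA (medium), `theorem EA (h1 : AZ_stmt) (h2 : AO_stmt) (h3 : SP_stmt) (h4 : WO_stmt) (h5 : SD_stmt) : EA_stmt`.
`e = #E ≥ 2`, `v = #V ≥ 2 e`, `p` has degree `≥ 2` (so `p ∈ V`). Use `SP` at `p` with `c + 1 = e`. `E₁ = E.filter (p ∉ ·)`.
CASE degree 2: `#E₁ = e - 2`; `AO` on `V.erase p`, `E₁`, `e - 2`: `2 N₁ ≥ 2^(e-2) (2 (v-1) - 3 (e-2)) = 2^(e-2) (2v-3e+4)`, for the covers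
with `p` (size `e - 1` without `p`). Without `p`: `WO` with the two neighbours `a, b`, `c = e - 2`, and `AZ` on `V \ {p, a, b}` (`v - 3 ≥ 2 (e-2)`)
and at most `e - 2` pairs: `≥ 2^(e-2)`. Total `8 N ≥ 2^e (2v-3e+4) + 2 * 2^e`.
CASE degree `≥ 3`: `#E₁ ≤ e - 3`. `N ≥ N₁ = #(cov (V.erase p) E₁ (e-1))`. Some `u ∈ V.erase p` is in no member of `E₁` (`SD`: otherwise
`v - 1 ≤ 2 (e-3)`). `SP` at `u` (no member of `E₁` contains `u`, so both sets of pairs are `E₁`): `N₁ = N₂ + N₃`, `N₂` (size `e-2`) and `N₃` (size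
`e-1`), both in `(V.erase p).erase u` of size `v - 2`; `AO` with `e - 3`: `2 N₂ ≥ 2^(e-3) (2v-3e+5)`; `AO` with `e - 2`:
`2 N₃ ≥ 2^(e-2) (2v-3e+2)`. Sum: `16 (N₂+N₃) ≥ 2^e (3 (2v-3e) + 9) ≥ 2 * 2^e (2v-3e+6)`, since `2v-3e ≥ e ≥ 3`. -/
def EA_stmt : Prop :=
  ∀ (α : Type) [DecidableEq α] (V : Finset α) (E : Finset (Finset α)) (p : α), Gr V E → 2 ≤ #(inc E p) → 2 * #E ≤ #V →
    2 ^ #E * (2 * #V - 3 * #E + 6) ≤ 8 * #(cov V E #E)

/-- Row EX (medium), `theorem EX (h1 : DC_stmt) : EX_stmt`. Assume all degrees are `≤ 2`. Let `P` be the set of the `x ∈ D` of degree 2, `t = #P`,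
`i` = the number of the members of `E` inside `D`. By `DC`: `#E + i ≤ ∑_{x ∈ D} deg x ≤ #D + t`, so `t ≥ i + 2`. If `t ≥ 4`: `p ∈ P` is in exactly two
members of `E`, so one of the at least three other `q ∈ P` has `{p, q} ∉ E`. If `t = 3`: `i ≤ 1`, so not all three pairs of `P` are in `E`.
If `t = 2`: `i = 0`, so the pair `P = {p, q}` is not in `E`. -/
def EX_stmt : Prop :=
  ∀ (α : Type) [DecidableEq α] (V : Finset α) (E : Finset (Finset α)) (D : Finset α), Gr V E →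
    (∀ e ∈ E, ∃ x ∈ e, x ∈ D) → #D + 2 ≤ #E →
    (∃ p, 3 ≤ #(inc E p)) ∨ ∃ p q, p ≠ q ∧ #(inc E p) = 2 ∧ #(inc E q) = 2 ∧ ({p, q} : Finset α) ∉ E

/-- Row NC (medium), `theorem NC (h1 : SD_stmt) (h2 : DC_stmt) : NC_stmt`. If some `y ∈ V` has degree 0: a cover `C` of size `e - 1` with `y ∈ C`,
`D = C.erase y`. Otherwise the degree sum `2 e` over `2 e - 1` elements shows that one `p ∈ V` has degree 2 and all others have degree 1. Let
`{p, a} ∈ E`, and `C` a cover of size `e - 1` with `a ∈ C`. By `DC`: `e + i ≤ ∑_{x ∈ C} deg x = (e - 1) + [p ∈ C]`, `i` = number of the members of `E`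
inside `C`. So `p ∈ C` and `i = 0`, but `{p, a} ⊆ C`: contradiction. -/
def NC_stmt : Prop :=
  ∀ (α : Type) [DecidableEq α] (V : Finset α) (E : Finset (Finset α)), Gr V E → 2 ≤ #E → #V = 2 * #E - 1 →
    (∀ x ∈ V, ∃ C ∈ cov V E (#E - 1), x ∈ C) →
    ∃ D : Finset α, (∀ e ∈ E, ∃ x ∈ e, x ∈ D) ∧ #D + 2 ≤ #E

/-- Row NM (short), `theorem NM (h1 : SD_stmt) (h2 : DC_stmt) : NM_stmt`. Otherwise all degrees are `≤ 1`. The degree sum is `2 e < #V`, so some
`y ∈ V` has degree 0. A cover `C ∋ y` of size `e`: `C.erase y` is a cover, and by `DC`, `e ≤ ∑_{x ∈ C.erase y} deg x ≤ e - 1`. -/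
def NM_stmt : Prop :=
  ∀ (α : Type) [DecidableEq α] (V : Finset α) (E : Finset (Finset α)), Gr V E → 2 * #E + 1 ≤ #V →
    (∀ x ∈ V, ∃ C ∈ cov V E #E, x ∈ C) → ∃ p, 2 ≤ #(inc E p)

/-- Row EB (medium), `theorem EB (h1 : AZ_stmt) (h2 : AO_stmt) (h3 : SP_stmt) (h4 : WO_stmt) (h5 : EA_stmt) (h6 : EX_stmt) : EB_stmt`.
`e = #E ≥ 3`, `v = 2 e - 1`. Apply `EX` to `D`. CASE `p` with degree `≥ 3`: `SP` at `p` (size `e - 1`); covers with `p`: `AO` on `V.erase p`
(`2e-2` elements), at most `e - 3` pairs, `e - 3`: `2 N₁ ≥ 2^(e-3) (2 (2e-2) - 3 (e-3)) = 2^(e-3) (e+5)`, so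
`32 N ≥ 2^e (2e+10) ≥ 2^e (e+10)`. CASE `p ≠ q` of degree 2, `{p, q} ∉ E` (then `e ≥ 4`): covers with `p`: `E₁ = E.filter (p ∉ ·)` has `e - 2`
members, two of them contain `q`; `EA` on `V.erase p`: `8 N₁ ≥ 2^(e-2) (2 (2e-2) - 3 (e-2) + 6) = 2^(e-2) (e+8)`. Covers without `p`: `WO` with the
neighbours `a, b` of `p`, `c = e - 3`, `V₀ = V \ {p, a, b}` (`2e-4` elements, `q ∈ V₀`), `E₀` = the members of `E` without `p, a, b`. If both members
of `E` with `q` are in `E₀`: `#E₀ ≤ e - 2`, `SP` at `q` and `AZ` on `V₀.erase q` with at most `e - 4` pairs: `≥ 2^(e-4)`. Otherwise `#E₀ ≤ e - 3` and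
`AZ`: `≥ 2^(e-3)`. So `32 N ≥ 2^e (e+8) + 32 * 2^(e-4)`. -/
def EB_stmt : Prop :=
  ∀ (α : Type) [DecidableEq α] (V : Finset α) (E : Finset (Finset α)) (D : Finset α), Gr V E → 3 ≤ #E → #V = 2 * #E - 1 →
    (∀ e ∈ E, ∃ x ∈ e, x ∈ D) → #D + 2 ≤ #E → 2 ^ #E * (#E + 10) ≤ 32 * #(cov V E (#E - 1))

/-- The non-edges of `G`. -/
noncomputable def NE {n : ℕ} (G : SimpleGraph (Fin n)) : Finset (Finset (Fin n)) := by
  classical exact ((univ : Finset (Fin n)).powersetCard 2).filter fun e => ¬ G.IsClique (e : Set (Fin n))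

/-- Row WA (short). The 2-element sets that are cliques are the `{a, b}` with `G.Adj a b`; their number is `#G.edgeFinset`. (For instance by the
injection `Sym2.toFinset`, or `card_nbij`.) -/
def WA_stmt : Prop :=
  ∀ (n : ℕ) (G : SimpleGraph (Fin n)) [DecidableRel G.Adj], #(NE G) + #G.edgeFinset = n.choose 2

/-- Row WB (short). From `SimpleGraph.card_edgeFinset_turanGraph`: for `r ≤ n < 2 r` one has `n % r = n - r`, for `n = 2 r` it is `0`, for
`n = 2 r + 1` it is `1` (`r ≥ 2`). Numbers of missing edges: `n - r` and, for `n = 2 r + 1`, `r + 2`. -/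
def WB_stmt : Prop :=
  ∀ n r : ℕ, 2 ≤ r →
    (n ≤ r → #(SimpleGraph.turanGraph n r).edgeFinset = n.choose 2) ∧
    (r ≤ n → n ≤ 2 * r → #(SimpleGraph.turanGraph n r).edgeFinset + (n - r) = n.choose 2) ∧
    (n = 2 * r + 1 → #(SimpleGraph.turanGraph n r).edgeFinset + (r + 2) = n.choose 2)

/-- Row WC (short). `s` is a clique of `G` if and only if its complement is a cover of `NE G`. -/
def WC_stmt : Prop :=
  ∀ (n k : ℕ) (G : SimpleGraph (Fin n)) [DecidableRel G.Adj], k ≤ n →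
    #(cov univ (NE G) (n - k)) = #(G.cliqueFinset k) ∧
    ((∀ v, ∃ s, G.IsNClique k s ∧ v ∉ s) → ∀ x ∈ (univ : Finset (Fin n)), ∃ C ∈ cov univ (NE G) (n - k), x ∈ C)

/-- The size of the `i`-th part (`1 ≤ i ≤ r`) of the Turan graph `T_r(n)`, parts in decreasing order. -/
def partSize (n r i : ℕ) : ℕ := (n + r - i) / r

/-- The number `(|V_1| + |V_2| - 2) |V_3| ... |V_(k-1)|` of the problem. -/
def target (n k : ℕ) : ℕ :=
  (partSize n (k - 1) 1 + partSize n (k - 1) 2 - 2) * ∏ i ∈ Icc 3 (k - 1), partSize n (k - 1) i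

/-- Row WD (short). With `r = k - 1`: for `n ≤ 2 r` the `i`-th part has 2 elements for `i ≤ n - r` and 1 for `i > n - r`, so for
`n ≥ k + 2 = r + 3` the product over `3 ≤ i ≤ r` is `2^(n-r-2)`; for `n = 2 r + 1` the first part has 3 elements and all others have 2. -/
def WD_stmt : Prop :=
  ∀ n k : ℕ, 3 ≤ k → (k + 2 ≤ n → n ≤ 2 * k - 2 → target n k = 2 ^ (n - k)) ∧ (n = 2 * k - 1 → target n k = 3 * 2 ^ (k - 3))

/-- Row FN (medium), `theorem FN (h1 : EA_stmt) (h2 : EB_stmt) (h3 : NC_stmt) (h4 : NM_stmt) (h5 : WA_stmt) (h6 : WB_stmt) (h7 : WC_stmt)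
(h8 : WD_stmt) : FN_stmt`. `r = k - 1`. By `WA`, `WB`: `n ≤ r` is impossible (`#(NE G) + t + 1 = t`); for `r < n ≤ 2 r` (`n ≥ r + 1 = k`) one has
`#(NE G) = n - r - 1 = n - k`; for `n = 2 r + 1 = 2 k - 1`, `#(NE G) = r + 1 = k`. `Gr univ (NE G)` is clear. CASE `k ≤ n ≤ 2k - 2`: `NM`
(`2 (n-k) + 1 ≤ n`) gives `p` with degree `≥ 2`, so `n - k ≥ 2`; `EA` and `WC`. CASE `n = 2k-1`: `NC`, `EB`, `WC` (`n - k = k - 1`). The comparison with
`target` is `WD`: `8 * 2^(n-k) < 2^(n-k) (3k-n+6)` since `3k-n ≥ k+2 ≥ 5`, and `32 * 3 * 2^(k-3) = 12 * 2^k < 2^k (k+10)`. -/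
def FN_stmt : Prop :=
  ∀ (k n : ℕ) (G : SimpleGraph (Fin n)) [DecidableRel G.Adj], 3 ≤ k → n ≤ 2 * k - 1 →
    #G.edgeFinset = #(SimpleGraph.turanGraph n (k - 1)).edgeFinset + 1 →
    (∀ v, ∃ s, G.IsNClique k s ∧ v ∉ s) →
    k + 2 ≤ n ∧ target n k < #(G.cliqueFinset k) ∧
    (n ≤ 2 * k - 2 → 2 ^ (n - k) * (3 * k - n + 6) ≤ 8 * #(G.cliqueFinset k)) ∧
    (n = 2 * k - 1 → 2 ^ k * (k + 10) ≤ 32 * #(G.cliqueFinset k))

end Pool.Agent.helper41.CL
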