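import Pool.Agent.helper41.CL.Spec

/-!
# MP_d9d598_co, project CL, part B: the bounds of `FN_stmt` are attained

Rules as in `Spec.lean`; `import Pool.Agent.helper41.CL.SpecB`.
-/

set_option autoImplicit false

namespace Pool.Agent.helper41.CL

open Finset

/-- Row XK (short), `theorem XK (h1 : SP_stmt) : XK_stmt`. A new component `{a, b}`. `SP` at `a`: the covers with `a` are covers of `E` in `insert b V`
(`SP` at `b`: size `c + 1` splits into `c` and `c + 1`), the covers without `a` contain `b` (`SP` at `b`; a set inside `V` does not meet `{a, b}`). -/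
def XK_stmt : Prop :=
  ∀ (α : Type) [DecidableEq α] (V : Finset α) (E : Finset (Finset α)) (a b : α), a ≠ b → a ∉ V → b ∉ V → Gr V E →
    #(cov (insert a (insert b V)) (insert {a, b} E) 0) = 0 ∧
    #(cov (insert a (insert b V)) (insert {a, b} E) 1) = 2 * #(cov V E 0) ∧
    ∀ c : ℕ, #(cov (insert a (insert b V)) (insert {a, b} E) (c + 2)) = 2 * #(cov V E (c + 1)) + #(cov V E c)

/-- Row XI (short), `theorem XI (h1 : SP_stmt) : XI_stmt`. A new isolated vertex: `SP` at `a` (no member of `E` contains `a`, `(insert a V).erase a = V`). -/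
def XI_stmt : Prop :=
  ∀ (α : Type) [DecidableEq α] (V : Finset α) (E : Finset (Finset α)) (a : α), a ∉ V → Gr V E →
    #(cov (insert a V) E 0) = #(cov V E 0) ∧
    ∀ c : ℕ, #(cov (insert a V) E (c + 1)) = #(cov V E c) + #(cov V E (c + 1))

/-- A path with three vertices and `m` further disjoint pairs. -/
def EP : ℕ → Finset (Finset ℕ)
  | 0 => {{0, 1}, {0, 2}}
  | m + 1 => insert {2 * m + 3, 2 * m + 4} (EP m)

/-- Two paths with three vertices and `m` further disjoint pairs (`6` is isolated). -/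
def EQ : ℕ → Finset (Finset ℕ)
  | 0 => {{0, 1}, {0, 2}, {3, 4}, {3, 5}}
  | m + 1 => insert {2 * m + 7, 2 * m + 8} (EQ m)

/-- Row XP (medium), `theorem XP (h1 : XK_stmt) (h2 : XI_stmt) : XP_stmt`. First `i = 0`, induction on `m` (`m = 0` by `decide`; step by `XK`,
`range (2m+5) = insert (2m+4) (insert (2m+3) (range (2m+3)))`: `N(m+1, m+2) = 2 N(m, m+1) + N(m, m)`, `N(m+1, m+3) = 2 N(m, m+2) + N(m, m+1)`, where
`N(m, c)` is the number of covers of size `c`). Then for fixed `m` induction on `i` with `XI` (`range (j+1) = insert j (range j)`). -/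
def XP_stmt : Prop :=
  ∀ m i : ℕ, Gr (range (2 * m + 3 + i)) (EP m) ∧ #(EP m) = m + 2 ∧
    (∀ c ≤ m, #(cov (range (2 * m + 3 + i)) (EP m) c) = 0) ∧
    #(cov (range (2 * m + 3 + i)) (EP m) (m + 1)) = 2 ^ m ∧
    2 * #(cov (range (2 * m + 3 + i)) (EP m) (m + 2)) = 2 ^ m * (m + 2 * i + 6)

/-- Row XQ (medium), `theorem XQ (h1 : XK_stmt) : XQ_stmt`. Induction on `m`: `m = 0` by `decide` (35 sets), step by `XK` as in `XP`:
`N(m+1, m+3) = 2 N(m, m+2) + N(m, m+1)`, `N(m+1, m+4) = 2 N(m, m+3) + N(m, m+2)`. -/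
def XQ_stmt : Prop :=
  ∀ m : ℕ, Gr (range (2 * m + 7)) (EQ m) ∧ #(EQ m) = m + 4 ∧
    (∀ c ≤ m + 1, #(cov (range (2 * m + 7)) (EQ m) c) = 0) ∧
    #(cov (range (2 * m + 7)) (EQ m) (m + 2)) = 2 ^ m ∧
    2 * #(cov (range (2 * m + 7)) (EQ m) (m + 3)) = 2 ^ m * (m + 14)

/-- Row XR (short). By `decide` / `rfl` (a star with three edges and an isolated vertex). -/
def XR_stmt : Prop :=
  Gr (range 5) ({{0, 1}, {0, 2}, {0, 3}} : Finset (Finset ℕ)) ∧ #({{0, 1}, {0, 2}, {0, 3}} : Finset (Finset ℕ)) = 3 ∧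
    #(cov (range 5) ({{0, 1}, {0, 2}, {0, 3}} : Finset (Finset ℕ)) 1) = 1 ∧
    #(cov (range 5) ({{0, 1}, {0, 2}, {0, 3}} : Finset (Finset ℕ)) 2) = 4

/-- Row XC (short). Let `C₀` be a cover of size `c`. If `x ∉ C₀`: `insert x C₀`. Otherwise some `y ∈ V \ C₀`: `insert y C₀`. -/
def XC_stmt : Prop :=
  ∀ (α : Type) [DecidableEq α] (V : Finset α) (E : Finset (Finset α)) (c : ℕ), #(cov V E c) ≠ 0 → c + 1 ≤ #V →
    ∀ x ∈ V, ∃ C ∈ cov V E (c + 1), x ∈ C

/-- Row XG (medium). `G.Adj i j := i ≠ j ∧ {(i : ℕ), (j : ℕ)} ∉ E`. The map `s ↦ s.map Fin.valEmbedding` is a bijection from `NE G` to `E` and from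
`cov univ (NE G) c` to `cov (range n) E c` (subsets of `range n` are the images). -/
def XG_stmt : Prop :=
  ∀ (n : ℕ) (E : Finset (Finset ℕ)), Gr (range n) E → ∃ G : SimpleGraph (Fin n), #(NE G) = #E ∧
    (∀ c : ℕ, #(cov univ (NE G) c) = #(cov (range n) E c)) ∧
    ∀ c : ℕ, (∀ x ∈ range n, ∃ C ∈ cov (range n) E c, x ∈ C) → ∀ x : Fin n, ∃ C ∈ cov univ (NE G) c, x ∈ C

/-- Row WE (short). The complement of a cover `C` of `NE G` with `n - k` elements is a clique with `k` elements. -/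
def WE_stmt : Prop :=
  ∀ (n k : ℕ) (G : SimpleGraph (Fin n)) [DecidableRel G.Adj], k ≤ n →
    (∀ x : Fin n, ∃ C ∈ cov univ (NE G) (n - k), x ∈ C) → ∀ v, ∃ s, G.IsNClique k s ∧ v ∉ s

/-- The numbers of copies of `K_k` in the graphs with `n` vertices and `t_{k-1}(n) + 1` edges whose copies of `K_k` have no common vertex. -/
def counts (n k : ℕ) : Set ℕ :=
  {N | ∃ (G : SimpleGraph (Fin n)) (_ : DecidableRel G.Adj),
    #G.edgeFinset = #(SimpleGraph.turanGraph n (k - 1)).edgeFinset + 1 ∧ (∀ v, ∃ s, G.IsNClique k s ∧ v ∉ s) ∧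
    N = #(G.cliqueFinset k)}

/-- Row SH (medium), `theorem SH (h1 : XP_stmt) (h2 : XQ_stmt) (h3 : XR_stmt) (h4 : XC_stmt) (h5 : XG_stmt) (h6 : WE_stmt) (h7 : WA_stmt) (h8 : WB_stmt)
(h9 : WC_stmt) : SH_stmt`. The graphs of `XG`: CASE `n ≤ 2k-2`: `m = n-k-2`, `i = 2k-n+1`, `2m+3+i = n`, `#E = m + 2 = n - k`, covers of size `n - k = m + 2`.
CASE `n = 2k-1`, `k ≥ 4`: `m = k - 4`, `EQ m`, covers of size `k - 1 = m + 3`. CASE `k = 3`, `n = 5`: the star of `XR`. The number of edges: `WA`, `WB`.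
No common vertex: `XC` (there are covers with one element less), `WE`. The number of cliques: `WC` (first part). -/
def SH_stmt : Prop :=
  ∀ k n : ℕ, 3 ≤ k →
    (k + 2 ≤ n → n ≤ 2 * k - 2 → ∃ N ∈ counts n k, 8 * N = 2 ^ (n - k) * (3 * k - n + 6)) ∧
    (4 ≤ k → n = 2 * k - 1 → ∃ N ∈ counts n k, 32 * N = 2 ^ k * (k + 10)) ∧
    (k = 3 → n = 5 → 4 ∈ counts n k)

end Pool.Agent.helper41.CL
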