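import Pool.Agent.helper41.CL.SpecB

/-!
# MP_d9d598_co, project CL, part C: the case `n = 2 k`

Here the bound of the problem is attained. `e = #E = k + 2`, `#V = 2 k = 2 e - 4`, covers of size `k = e - 2`, the bound is `2^(k-1) = 2^(e-3)`.
Rules as in `Spec.lean`; `import Pool.Agent.helper41.CL.SpecC`. `deg x` means `#(inc E x)`.
-/

set_option autoImplicit false

namespace Pool.Agent.helper41.CL

open Finset

/-- Row EE (short), `theorem EE (h1 : AZ_stmt) (h2 : SP_stmt) : EE_stmt`. `e ≥ 2`. `SP` at `q` (`q ∈ V`), size `e - 1 = (e - 2) + 1`; covers with `q`: at most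
`e - 2` members of `E` do not contain `q`, `2 (e - 2) ≤ #V - 1`, `AZ`: `≥ 2^(e-2)`. -/
def EE_stmt : Prop :=
  ∀ (α : Type) [DecidableEq α] (V : Finset α) (E : Finset (Finset α)) (q : α) (e : ℕ), Gr V E → 2 ≤ #(inc E q) → #E ≤ e →
    2 * e ≤ #V + 3 → 2 ^ e ≤ 4 * #(cov V E (e - 1))

/-- Row EC (medium), `theorem EC (h1 : AZ_stmt) (h2 : AO_stmt) (h3 : SP_stmt) (h4 : WO_stmt) (h5 : EA_stmt) (h6 : SD_stmt) : EC_stmt`. `e = #E`.
CASE `deg p ≥ 3`: `SP` at `p`; with `p`: `AO` on `V.erase p` (`2e-2` elements) with `e - 3`: `2 N₁ ≥ 2^(e-3) (2 (2e-2) - 3 (e-3)) = 2^(e-3) (e+5) ≥ 2^e`.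
CASE all degrees `≤ 2`: by `SD` `2e ≤ (#V - 1) + t`, `t` = number of the elements of degree 2, so `t ≥ 2`; let `p ≠ q` have degree 2.
(i) `{p, q} ∈ E`, the other member with `p` is `{p, b}`: covers with `p`: `AZ` on `V.erase p` with `e - 2`: `≥ 2^(e-2)`; covers without `p`: `WO` (neighbours
`q, b`, `c = e - 3`), the members of `E` without `p, q, b` are at most `e - 3` (`{p, q}`, `{p, b}` and the second member with `q` are excluded), `AZ`
on `V \ {p, q, b}` (`2e-4 ≥ 2 (e-3)`): `≥ 2^(e-3)`. Sum `3 * 2^(e-3)`. (ii) `{p, q} ∉ E` (so `e ≥ 4`): covers with `p`: `EA` on `V.erase p`, where `q` still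
has degree 2: `8 N₁ ≥ 2^(e-2) (2 (2e-2) - 3 (e-2) + 6) = 2^(e-2) (e+8) ≥ 3 * 2^e`. -/
def EC_stmt : Prop :=
  ∀ (α : Type) [DecidableEq α] (V : Finset α) (E : Finset (Finset α)), Gr V E → 3 ≤ #E → #V = 2 * #E - 1 →
    (∃ y ∈ V, inc E y = ∅) → 3 * 2 ^ #E ≤ 8 * #(cov V E (#E - 1))

/-- Row NB (short). -/
def NB_stmt : Prop :=
  ∀ (α : Type) [DecidableEq α] (V : Finset α) (E : Finset (Finset α)) (p : α), Gr V E → #(inc E p) = 2 →
    ∃ a b : α, a ≠ b ∧ p ≠ a ∧ p ≠ b ∧ p ∈ V ∧ a ∈ V ∧ b ∈ V ∧ ({p, a} : Finset α) ∈ E ∧ ({p, b} : Finset α) ∈ E ∧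
      ∀ e ∈ E, p ∈ e → e = {p, a} ∨ e = {p, b}

/-- Row DA (short), `theorem DA (h1 : AZ_stmt) (h2 : SP_stmt) : DA_stmt`. `SP` at `p` (size `e - 2`), covers with `p`: at most `e - 3` members of `E` do not
contain `p`, `#V - 1 = 2e - 5 ≥ 2 (e - 3)`, `AZ`: `≥ 2^(e-3)`. -/
def DA_stmt : Prop :=
  ∀ (α : Type) [DecidableEq α] (V : Finset α) (E : Finset (Finset α)) (p : α), Gr V E → 3 ≤ #(inc E p) → #V = 2 * #E - 4 →
    2 ^ #E ≤ 8 * #(cov V E (#E - 2))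

/-- Row DB (medium), `theorem DB (h1 : AZ_stmt) (h2 : SP_stmt) (h3 : WO_stmt) (h4 : EE_stmt) : DB_stmt`. `SP` at `p`. With `p`: `EE` on `V.erase p`,
`E.filter (p ∉ ·)` (`e - 2` members, `q` still has degree `≥ 2`), `e - 2`: `N₁ ≥ 2^(e-4)`. Without `p`: `WO` with `c = e - 4`; the members of `E` without
`p, a, b` are at most `e - 4`, because `{p, a}`, `{p, b}`, a second member with `a` and a second member with `b` are excluded, and they are four different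
sets (`{a, b} ∉ E`); `AZ` on `V \ {p, a, b}` (`2e-7 ≥ 2 (e-4)`): `≥ 2^(e-4)`. -/
def DB_stmt : Prop :=
  ∀ (α : Type) [DecidableEq α] (V : Finset α) (E : Finset (Finset α)) (p a b q : α), Gr V E → #V = 2 * #E - 4 →
    a ≠ b → p ≠ a → p ≠ b → ({p, a} : Finset α) ∈ E → ({p, b} : Finset α) ∈ E → (∀ e ∈ E, p ∈ e → e = {p, a} ∨ e = {p, b}) →
    2 ≤ #(inc E a) → 2 ≤ #(inc E b) → ({a, b} : Finset α) ∉ E → q ≠ p → q ≠ a → q ≠ b → 2 ≤ #(inc E q) →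
    2 ^ #E ≤ 8 * #(cov V E (#E - 2))

/-- Row DT (medium), `theorem DT (h1 : SP_stmt) (h2 : WO_stmt) (h3 : EE_stmt) (h4 : EC_stmt) : DT_stmt`. `SP` at `p`. With `p`: `EC` on `V.erase p`
(`2e-5 = 2(e-2)-1`), `E.filter (p ∉ ·)` (`e - 2` members), `y` isolated: `8 N₁ ≥ 3 * 2^(e-2)`. Without `p`: `WO` with `c = e - 4`; `E₀` = the members of
`E` without `p, a, b`: at most `e - 3` (`{p, a}`, `{p, b}` and a second member with `a` are excluded); two members of `E₀` contain `q` (members of `E` with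
`q` do not contain `p`, since `q ≠ a, b, p`); `EE` on `V \ {p, a, b}` with `e - 3`: `N₀ ≥ 2^(e-5)`. -/
def DT_stmt : Prop :=
  ∀ (α : Type) [DecidableEq α] (V : Finset α) (E : Finset (Finset α)) (p a b q y : α), Gr V E → 5 ≤ #E → #V = 2 * #E - 4 →
    a ≠ b → p ≠ a → p ≠ b → ({p, a} : Finset α) ∈ E → ({p, b} : Finset α) ∈ E → (∀ e ∈ E, p ∈ e → e = {p, a} ∨ e = {p, b}) →
    2 ≤ #(inc E a) → q ≠ p → q ≠ a → q ≠ b → 2 ≤ #((inc E q).filter fun e => a ∉ e ∧ b ∉ e) →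
    y ∈ V → y ≠ p → (∀ e ∈ E, y ∈ e → p ∈ e) →
    2 ^ #E ≤ 8 * #(cov V E (#E - 2))

/-- Row DX (medium), `theorem DX (h1 : DC_stmt) : DX_stmt`. A triangle `p, a, b`, `{q, u} ∈ E`. Suppose `u ∈ C`. `DC`:
`#E + i ≤ ∑_{x ∈ C} deg x ≤ #C + #(C ∩ {p, a, b, q})`, `i` = number of the members of `E` inside `C`. `C` contains at least two of `p, a, b`. If exactly two:
`i ≥ 1 + [q ∈ C]` (one side of the triangle; `{q, u}` if `q ∈ C`), so `#E + 1 + [q ∈ C] ≤ #C + 2 + [q ∈ C]`. If all three: `i ≥ 3 + [q ∈ C]`, so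
`#E + 3 + [q ∈ C] ≤ #C + 3 + [q ∈ C]`. Both contradict `#C + 2 ≤ #E`. -/
def DX_stmt : Prop :=
  ∀ (α : Type) [DecidableEq α] (V : Finset α) (E : Finset (Finset α)) (p a b q u : α) (C : Finset α), Gr V E →
    a ≠ b → p ≠ a → p ≠ b → q ≠ p → q ≠ a → q ≠ b → q ≠ u → u ≠ p → u ≠ a → u ≠ b →
    ({p, a} : Finset α) ∈ E → ({p, b} : Finset α) ∈ E → ({a, b} : Finset α) ∈ E → ({q, u} : Finset α) ∈ E →
    (∀ x, #(inc E x) ≤ 2) → (∀ x, #(inc E x) = 2 → x = p ∨ x = a ∨ x = b ∨ x = q) →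
    (∀ e ∈ E, ∃ x ∈ e, x ∈ C) → #C + 2 ≤ #E → u ∉ C

/-- Row DD (short). `D = {p, q} ∪ (one element of each member of E without p, q)`; at most `#E - 4` members of `E` contain neither `p` nor `q`. -/
def DD_stmt : Prop :=
  ∀ (α : Type) [DecidableEq α] (V : Finset α) (E : Finset (Finset α)) (p q : α), Gr V E → p ≠ q → ({p, q} : Finset α) ∉ E →
    2 ≤ #(inc E p) → 2 ≤ #(inc E q) → ∃ D : Finset α, (∀ e ∈ E, ∃ x ∈ e, x ∈ D) ∧ #D + 2 ≤ #E

/-- Row DF (medium), `theorem DF (h1 : SP_stmt) (h2 : EB_stmt) (h3 : DD_stmt) : DF_stmt`. Four elements of degree 2, pairwise not joined by a member of `E`, so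
`e ≥ 8`. `SP` at `p`. With `p`: `E₁ = E.filter (p ∉ ·)` has `e - 2` members, `q₁, q₂` have degree 2 there, `DD` gives `D`, `EB` on `V.erase p`
(`2e-5 = 2 (e-2) - 1`): `32 N₁ ≥ 2^(e-2) (e+8) ≥ 2^(e-2) * 16`. -/
def DF_stmt : Prop :=
  ∀ (α : Type) [DecidableEq α] (V : Finset α) (E : Finset (Finset α)) (p q₁ q₂ q₃ : α), Gr V E → #V = 2 * #E - 4 →
    p ≠ q₁ → p ≠ q₂ → p ≠ q₃ → q₁ ≠ q₂ → q₁ ≠ q₃ → q₂ ≠ q₃ →
    #(inc E p) = 2 → #(inc E q₁) = 2 → #(inc E q₂) = 2 → #(inc E q₃) = 2 →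
    ({p, q₁} : Finset α) ∉ E → ({p, q₂} : Finset α) ∉ E → ({p, q₃} : Finset α) ∉ E → ({q₁, q₂} : Finset α) ∉ E →
    ({q₁, q₃} : Finset α) ∉ E → ({q₂, q₃} : Finset α) ∉ E →
    2 ^ #E ≤ 8 * #(cov V E (#E - 2))

/-- Row ED (long), `theorem ED (h1 : SD_stmt) (h2 : NB_stmt) (h3 : DA_stmt) (h4 : DB_stmt) (h5 : DT_stmt) (h6 : DX_stmt) (h7 : DF_stmt) : ED_stmt`.
Some degree `≥ 3`: `DA`. Otherwise let `Q` = the elements of `V` of degree 2, `t = #Q`, `s` = number of the elements of `V` of degree 0. `SD`: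
`2 e = (#V - s) + t`, so `t = s + 4`.
CASE A: `p, a ∈ Q`, `{p, a} ∈ E`. `NB` at `p`: neighbours `a, b`; at `a`: neighbours `p, x`.
 A1: `b ∈ Q`, `{a, b} ∉ E`: `DB` at `p` (`q ∈ Q` different from `p, a, b`). A1': `x ∈ Q`, `{p, x} ∉ E`: `DB` at `a` (neighbours `p, x`).
 A2: `{a, b} ∈ E` (then `b = x`, and `b` has degree 2 with the members `{p, b}`, `{a, b}`). Let `q ∈ Q`, `q ≠ p, a, b`; the members with `q` do not contain
  `p, a, b`. If `s ≥ 1`: `DT` with `y` of degree 0. If `s = 0`: `Q = {p, a, b, q}`; `NB` at `q` gives `{q, u} ∈ E`; a cover `C ∋ u` of size `e - 2`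
  contradicts `DX`.
 A3: the rest: `{a, b} ∉ E`, `b ∉ Q`, so `b` has degree 1, and `x ∉ Q` (if `x ∈ Q` then `{p, x} ∈ E`, so `x = b`, `{a, b} ∈ E`). `DT` with `y = b` and any
  `q ∈ Q`, `q ≠ p, a` (a member with `q` does not contain `b`, and not `a` since `q ≠ p, x`).
CASE B: no two elements of `Q` form a member of `E`: `DF` with four elements of `Q`. -/
def ED_stmt : Prop :=
  ∀ (α : Type) [DecidableEq α] (V : Finset α) (E : Finset (Finset α)), Gr V E → 5 ≤ #E → #V = 2 * #E - 4 →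
    (∀ x ∈ V, ∃ C ∈ cov V E (#E - 2), x ∈ C) → 2 ^ #E ≤ 8 * #(cov V E (#E - 2))

/-- Row WF (short). As `WB`: `n % r = 2` for `r ≥ 3`, `0` for `r = 2`. -/
def WF_stmt : Prop :=
  ∀ r : ℕ, 2 ≤ r → #(SimpleGraph.turanGraph (2 * r + 2) r).edgeFinset + (r + 4) = (2 * r + 2).choose 2

/-- Row WG (short). The first two parts have 3 elements, the others 2. -/
def WG_stmt : Prop := ∀ k : ℕ, 3 ≤ k → target (2 * k) k = 2 ^ (k - 1)

/-- A path with six vertices and `m` further disjoint pairs. -/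
def ES : ℕ → Finset (Finset ℕ)
  | 0 => {{0, 1}, {1, 2}, {2, 3}, {3, 4}, {4, 5}}
  | m + 1 => insert {2 * m + 6, 2 * m + 7} (ES m)

/-- Row XS (medium), `theorem XS (h1 : XK_stmt) : XS_stmt`. Induction on `m` (`m = 0` by `decide`), step by `XK` (`N(m+1, m+4) = 2 N(m, m+3) + N(m, m+2)`); for the
last part: a cover `C` for `m` gives the covers `insert (2m+6) C`, `insert (2m+7) C` for `m + 1`. -/
def XS_stmt : Prop :=
  ∀ m : ℕ, Gr (range (2 * m + 6)) (ES m) ∧ #(ES m) = m + 5 ∧ (∀ c ≤ m + 2, #(cov (range (2 * m + 6)) (ES m) c) = 0) ∧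
    #(cov (range (2 * m + 6)) (ES m) (m + 3)) = 4 * 2 ^ m ∧
    ∀ x ∈ range (2 * m + 6), ∃ C ∈ cov (range (2 * m + 6)) (ES m) (m + 3), x ∈ C

/-- Row SI (medium), `theorem SI (h1 : ED_stmt) (h2 : XS_stmt) (h3 : XG_stmt) (h4 : WE_stmt) (h5 : WA_stmt) (h6 : WC_stmt) (h7 : WF_stmt) (h8 : WG_stmt) : SI_stmt`.
Lower bound as in `Pool/Agent/helper41/CL/FN.lean`: `n = 2 k`, `r = k - 1`, `#(NE G) = k + 2` by `WA`, `WF`, `ED`, `WC`. Attained: the graph of `XG` for `ES (k-3)`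
(see `Pool/Agent/helper71/CL/SH.lean`). -/
def SI_stmt : Prop := ∀ k : ℕ, 3 ≤ k → target (2 * k) k = 2 ^ (k - 1) ∧ IsLeast (counts (2 * k) k) (2 ^ (k - 1))

end Pool.Agent.helper41.CL
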