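import Pool.Agent.helper47.CL.SpecD
import Pool.Agent.helper41.CL.All2

/-! The bound of the problem is attained for `2 k ≤ n ≤ 3 k - 3`: a path with six vertices, `m` pairs and `t` triangles as non-edges. -/

set_option autoImplicit false

namespace Pool.Agent.helper41.CL

open Finset

theorem XT_mem {α : Type} [DecidableEq α] {V : Finset α} {E : Finset (Finset α)} {c : ℕ} {C : Finset α} :
    C ∈ cov V E c ↔ (C ⊆ V ∧ #C = c) ∧ ∀ e ∈ E, ∃ x ∈ e, x ∈ C := by
  unfold cov
  rw [mem_filter, mem_powersetCard]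

/-- The part of a cover of `E ∪ pairs of T` in `V`. -/
theorem XT_part {α : Type} [DecidableEq α] (V T : Finset α) (E : Finset (Finset α)) (c : ℕ) (D : Finset α)
    (hG : Gr V E) (hd : Disjoint V T) (hD : D ∈ cov (V ∪ T) (E ∪ T.powersetCard 2) c) :
    D ∩ V ∈ cov V E (#(D ∩ V)) ∧ #(D ∩ V) + #(D ∩ T) = c ∧ #(T \ D) ≤ 1 ∧ D = (D ∩ V) ∪ (D ∩ T) := by
  rw [XT_mem] at hD
  obtain ⟨⟨h1, h2⟩, h3⟩ := hD
  have hU : D = (D ∩ V) ∪ (D ∩ T) := by
    rw [← inter_union_distrib_left]
    exact (inter_eq_left.2 h1).symm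
  refine ⟨?_, ?_, ?_, hU⟩
  · rw [XT_mem]
    refine ⟨⟨inter_subset_right, rfl⟩, fun e he => ?_⟩
    obtain ⟨x, hx, hxD⟩ := h3 e (mem_union_left _ he)
    exact ⟨x, hx, mem_inter.2 ⟨hxD, (hG e he).1 hx⟩⟩
  · rw [← h2]
    conv_rhs => rw [hU]
    rw [card_union_of_disjoint]
    exact (hd.mono inter_subset_right inter_subset_right)
  · rw [card_le_one]
    intro y hy z hz
    by_contra hne
    rw [mem_sdiff] at hy hz
    have hp : ({y, z} : Finset α) ∈ E ∪ T.powersetCard 2 := by
      refine mem_union_right _ ?_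
      rw [mem_powersetCard]
      refine ⟨?_, card_pair hne⟩
      intro w hw
      rw [mem_insert, mem_singleton] at hw
      rcases hw with rfl | rfl
      · exact hy.1
      · exact hz.1
    obtain ⟨x, hx, hxD⟩ := h3 _ hp
    rw [mem_insert, mem_singleton] at hx
    rcases hx with rfl | rfl
    · exact hy.2 hxD
    · exact hz.2 hxD

theorem XT_zero {α : Type} [DecidableEq α] (V T : Finset α) (E : Finset (Finset α)) (s τ : ℕ)
    (hG : Gr V E) (hd : Disjoint V T) (hT : #T = τ + 1) (h0 : ∀ c < s, #(cov V E c) = 0) :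
    ∀ c < s + τ, #(cov (V ∪ T) (E ∪ T.powersetCard 2) c) = 0 := by
  intro c hc
  rw [card_eq_zero, eq_empty_iff_forall_notMem]
  intro D hD
  obtain ⟨h1, h2, h3, _⟩ := XT_part V T E c D hG hd hD
  have h4 : #(T \ D) + #(D ∩ T) = #T := by
    rw [inter_comm]
    exact card_sdiff_add_card_inter T D
  have h5 := h0 (#(D ∩ V)) (by omega)
  rw [card_eq_zero] at h5
  rw [h5] at h1
  exact notMem_empty _ h1

theorem XT_ins {α : Type} [DecidableEq α] (V T : Finset α) (E : Finset (Finset α)) (s τ : ℕ) (C : Finset α) (z : α)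
    (hd : Disjoint V T) (hT : #T = τ + 1) (hC : C ∈ cov V E s) (hz : z ∈ T) :
    C ∪ T.erase z ∈ cov (V ∪ T) (E ∪ T.powersetCard 2) (s + τ) := by
  rw [XT_mem] at hC ⊢
  obtain ⟨⟨h1, h2⟩, h3⟩ := hC
  refine ⟨⟨union_subset_union h1 (erase_subset _ _), ?_⟩, fun e he => ?_⟩
  · rw [card_union_of_disjoint (hd.mono h1 (erase_subset _ _)), h2, card_erase_of_mem hz, hT]
    rfl
  · rw [mem_union] at he
    rcases he with he | he
    · obtain ⟨x, hx, hxC⟩ := h3 e he
      exact ⟨x, hx, mem_union_left _ hxC⟩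
    · rw [mem_powersetCard] at he
      obtain ⟨he1, he2⟩ := he
      obtain ⟨x, y, hxy, rfl⟩ := card_eq_two.1 he2
      by_cases hxz : x = z
      · refine ⟨y, mem_insert_of_mem (mem_singleton_self y), mem_union_right _ (mem_erase.2 ⟨?_, he1 (mem_insert_of_mem (mem_singleton_self y))⟩)⟩
        rw [← hxz]
        exact hxy.symm
      · exact ⟨x, mem_insert_self _ _, mem_union_right _ (mem_erase.2 ⟨hxz, he1 (mem_insert_self _ _)⟩)⟩

theorem XT_count {α : Type} [DecidableEq α] (V T : Finset α) (E : Finset (Finset α)) (s τ : ℕ)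
    (hG : Gr V E) (hd : Disjoint V T) (hT : #T = τ + 1) (h0 : ∀ c < s, #(cov V E c) = 0) :
    #(cov (V ∪ T) (E ∪ T.powersetCard 2) (s + τ)) = (τ + 1) * #(cov V E s) := by
  have key : cov (V ∪ T) (E ∪ T.powersetCard 2) (s + τ) =
      (cov V E s ×ˢ T).image fun p => p.1 ∪ T.erase p.2 := by
    ext D
    rw [mem_image]
    constructor
    · intro hD
      obtain ⟨h1, h2, h3, h4⟩ := XT_part V T E _ D hG hd hD
      have h5 : #(T \ D) + #(D ∩ T) = #T := by
        rw [inter_comm]
        exact card_sdiff_add_card_inter T D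
      have h6 : s ≤ #(D ∩ V) := by
        by_contra hlt
        have h7 := h0 (#(D ∩ V)) (by omega)
        rw [card_eq_zero] at h7
        rw [h7] at h1
        exact notMem_empty _ h1
      have h7 : #(D ∩ V) = s := by omega
      have h8 : #(T \ D) = 1 := by omega
      obtain ⟨z, hz⟩ := card_eq_one.1 h8
      have hz1 : z ∈ T \ D := by rw [hz]; exact mem_singleton_self z
      refine ⟨(D ∩ V, z), ?_, ?_⟩
      · rw [mem_product]
        refine ⟨?_, (mem_sdiff.1 hz1).1⟩
        rw [← h7]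
        exact h1
      · have h9 : T.erase z = D ∩ T := by
          ext x
          rw [mem_erase, mem_inter]
          constructor
          · rintro ⟨hxz, hxT⟩
            refine ⟨?_, hxT⟩
            by_contra hxD
            have : x ∈ T \ D := mem_sdiff.2 ⟨hxT, hxD⟩
            rw [hz, mem_singleton] at this
            exact hxz this
          · rintro ⟨hxD, hxT⟩
            refine ⟨?_, hxT⟩
            rintro rfl
            exact (mem_sdiff.1 hz1).2 hxD
        show (D ∩ V) ∪ T.erase z = D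
        rw [h9]
        exact h4.symm
    · rintro ⟨⟨C, z⟩, hp, rfl⟩
      rw [mem_product] at hp
      exact XT_ins V T E s τ C z hd hT hp.1 hp.2
  rw [key, card_image_of_injOn, card_product, hT, mul_comm]
  rintro ⟨C, z⟩ h1 ⟨C', z'⟩ h2 h
  rw [mem_coe, mem_product] at h1 h2
  have hC := (XT_mem.1 h1.1).1.1
  have hC' := (XT_mem.1 h2.1).1.1
  have h3 : C ∪ T.erase z = C' ∪ T.erase z' := h
  have hCV : ∀ (A : Finset α) (w : α), A ⊆ V → (A ∪ T.erase w) ∩ V = A := by
    intro A w hA
    ext x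
    rw [mem_inter, mem_union]
    constructor
    · rintro ⟨h4 | h4, hx⟩
      · exact h4
      · exact absurd (mem_of_mem_erase h4) (disjoint_left.1 hd hx)
    · intro hx
      exact ⟨Or.inl hx, hA hx⟩
  have hCC : C = C' := by rw [← hCV C z hC, h3, hCV C' z' hC']
  have hzz : z = z' := by
    by_contra hne
    have h4 : z ∈ C' ∪ T.erase z' := mem_union_right _ (mem_erase.2 ⟨hne, h1.2⟩)
    rw [← h3, mem_union] at h4
    rcases h4 with h4 | h4
    · exact disjoint_left.1 hd (hC h4) h1.2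
    · exact (mem_erase.1 h4).1 rfl
  rw [hCC, hzz]

/-- The vertices of the `t`-th triangle. -/
def TT (m t : ℕ) : Finset ℕ := Ico (2 * m + 6 + 3 * t) (2 * m + 6 + 3 * (t + 1))

/-- A path with six vertices, `m` pairs and `t` triangles. -/
def ET (m : ℕ) : ℕ → Finset (Finset ℕ)
  | 0 => ES m
  | t + 1 => ET m t ∪ (TT m t).powersetCard 2

theorem XT_range (m t : ℕ) : range (2 * m + 6 + 3 * (t + 1)) = range (2 * m + 6 + 3 * t) ∪ TT m t := by
  ext x
  rw [mem_union, mem_range, mem_range, TT, mem_Ico]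
  omega

theorem XT_disj (m t : ℕ) : Disjoint (range (2 * m + 6 + 3 * t)) (TT m t) := by
  rw [disjoint_left]
  intro x hx hx2
  rw [mem_range] at hx
  rw [TT, mem_Ico] at hx2
  omega

theorem XT_card (m t : ℕ) : #(TT m t) = 2 + 1 := by
  rw [TT, Nat.card_Ico]
  omega

theorem XT_all (xs : XS_stmt) (m t : ℕ) : Gr (range (2 * m + 6 + 3 * t)) (ET m t) ∧ #(ET m t) = m + 5 + 3 * t ∧
    (∀ c < m + 3 + 2 * t, #(cov (range (2 * m + 6 + 3 * t)) (ET m t) c) = 0) ∧
    #(cov (range (2 * m + 6 + 3 * t)) (ET m t) (m + 3 + 2 * t)) = 4 * 2 ^ m * 3 ^ t ∧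
    ∀ x ∈ range (2 * m + 6 + 3 * t), ∃ C ∈ cov (range (2 * m + 6 + 3 * t)) (ET m t) (m + 3 + 2 * t), x ∈ C := by
  induction t with
  | zero =>
    obtain ⟨h1, h2, h3, h4, h5⟩ := xs m
    refine ⟨h1, h2, fun c hc => h3 c (by omega), ?_, h5⟩
    rw [pow_zero, mul_one]
    exact h4
  | succ t ih =>
    obtain ⟨h1, h2, h3, h4, h5⟩ := ih
    have hE : ET m (t + 1) = ET m t ∪ (TT m t).powersetCard 2 := rfl
    have e1 : m + 3 + 2 * (t + 1) = m + 3 + 2 * t + 2 := by ring
    rw [XT_range, hE, e1]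
    refine ⟨?_, ?_, ?_, ?_, ?_⟩
    · intro e he
      rw [mem_union] at he
      rcases he with he | he
      · exact ⟨(h1 e he).1.trans subset_union_left, (h1 e he).2⟩
      · rw [mem_powersetCard] at he
        exact ⟨he.1.trans subset_union_right, he.2⟩
    · rw [card_union_of_disjoint, h2, card_powersetCard, XT_card]
      · have : Nat.choose (2 + 1) 2 = 3 := by decide
        rw [this]
        ring
      · rw [disjoint_left]
        intro e he he2
        rw [mem_powersetCard] at he2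
        have h6 := h1 e he
        have h7 : e.Nonempty := by
          rw [← card_pos]
          omega
        obtain ⟨x, hx⟩ := h7
        exact disjoint_left.1 (XT_disj m t) (h6.1 hx) (he2.1 hx)
    · intro c hc
      exact XT_zero _ _ _ _ 2 h1 (XT_disj m t) (XT_card m t) h3 c hc
    · rw [XT_count _ _ _ _ 2 h1 (XT_disj m t) (XT_card m t) h3, h4, pow_succ]
      ring
    · intro x hx
      have hne : (cov (range (2 * m + 6 + 3 * t)) (ET m t) (m + 3 + 2 * t)).Nonempty := by
        rw [← card_pos, h4]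
        positivity
      rw [mem_union] at hx
      have hT3 := XT_card m t
      rcases hx with hx | hx
      · obtain ⟨C, hC, hxC⟩ := h5 x hx
        have hTn : (TT m t).Nonempty := by
          rw [← card_pos]
          omega
        obtain ⟨z, hz⟩ := hTn
        exact ⟨_, XT_ins _ _ _ _ 2 C z (XT_disj m t) (XT_card m t) hC hz, mem_union_left _ hxC⟩
      · obtain ⟨C, hC⟩ := hne
        have : ∃ z ∈ TT m t, z ≠ x := by
          by_contra hcon
          push Not at hcon
          have : TT m t ⊆ {x} := fun z hz => mem_singleton.2 (hcon z hz)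
          have := card_le_card this
          rw [card_singleton] at this
          omega
        obtain ⟨z, hz, hzx⟩ := this
        exact ⟨_, XT_ins _ _ _ _ 2 C z (XT_disj m t) (XT_card m t) hC hz,
          mem_union_right _ (mem_erase.2 ⟨hzx.symm, hx⟩)⟩

/-- The bound is attained. -/
theorem XT (xs : XS_stmt) (ta : TA_stmt) (tb : TB_stmt) (q r : ℕ) (hr : 2 ≤ r) (hq : r ≤ q) :
    target (2 * q + r) (q + 1) ∈ counts (2 * q + r) (q + 1) := by
  obtain ⟨t, rfl⟩ := Nat.exists_eq_add_of_le hr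
  obtain ⟨m, rfl⟩ := Nat.exists_eq_add_of_le hq
  obtain ⟨h1, h2, h3, h4, h5⟩ := XT_all xs m t
  have en : 2 * (2 + t + m) + (2 + t) = 2 * m + 6 + 3 * t := by ring
  have hta := ta (2 + t + m) (2 + t) (by omega) (by omega)
  have htb := tb (2 + t + m) (2 + t) (by omega) (by omega)
  rw [en] at hta htb ⊢
  obtain ⟨G, g1, g2, g3⟩ := XG (2 * m + 6 + 3 * t) (ET m t) h1
  classical
  have hk : 2 + t + m + 1 ≤ 2 * m + 6 + 3 * t := by omega
  have e2 : 2 * m + 6 + 3 * t - (2 + t + m + 1) = m + 3 + 2 * t := by omega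
  refine ⟨G, inferInstance, ?_, ?_, ?_⟩
  · have hw := WA (2 * m + 6 + 3 * t) G
    rw [g1, h2] at hw
    have e3 : 2 + t + m + 1 - 1 = 2 + t + m := by omega
    rw [e3]
    omega
  · refine WE (2 * m + 6 + 3 * t) (2 + t + m + 1) G hk ?_
    rw [e2]
    exact g3 _ h5
  · obtain ⟨w1, _⟩ := WC (2 * m + 6 + 3 * t) (2 + t + m + 1) G hk
    rw [← w1, e2, g2, h4, htb]
    have e4 : 2 + t - 2 = t := by omega
    have e5 : 2 + t + m - (2 + t) = m := by omega
    rw [e4, e5]
    ring

end Pool.Agent.helper41.CL
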